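import Pool.Agent.H87.LUY.Stmts

/-!
Project LU, part Y (Fuglede-Kadison route), module AAT.
-/

set_option autoImplicit false

open scoped BigOperators Matrix

noncomputable section

namespace Pool.LU.FK

theorem aat_ne (Y : YSet) (v : SV) (y : Y.X) : Y.ρ v y ≠ y := by
  intro h
  have h1 := Y.χ_self v y
  rw [h] at h1
  rcases Int.units_eq_one_or (Y.χ v y) with h2 | h2 <;> rw [h2] at h1 <;> exact absurd h1 (by decide)

theorem aat_col (Y : YSet) (v : SV) (i i' : Y.X) :
    ∑ y : Y.X, (if Y.χ v y = 1 then df Y v y i * df Y v y i' else 0) =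
      (if i' = i then 1 else 0) - (if i' = Y.ρ v i then (1 : ℝ) else 0) := by
  rcases Int.units_eq_one_or (Y.χ v i) with h | h
  · rw [Finset.sum_eq_single i]
    · have h1 : i ≠ Y.ρ v i := fun h' => aat_ne Y v i h'.symm
      rw [if_pos h, df, df, if_pos rfl, if_neg h1]
      ring
    · intro y _ hy
      by_cases hχ : Y.χ v y = 1
      · rw [if_pos hχ, df, if_neg (fun h' => hy h'.symm), if_neg, sub_zero, zero_mul]
        intro h'
        have h2 := Y.χ_self v y
        rw [← h', h, hχ] at h2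
        exact absurd h2 (by decide)
      · rw [if_neg hχ]
    · intro h'
      exact absurd (Finset.mem_univ _) h'
  · rw [Finset.sum_eq_single (Y.ρ v i)]
    · have h1 : Y.χ v (Y.ρ v i) = 1 := by
        rw [Y.χ_self, h, neg_neg]
      have h2 : i ≠ Y.ρ v i := fun h' => aat_ne Y v i h'.symm
      rw [if_pos h1, df, df, Y.ρρ, if_neg h2, if_pos rfl]
      ring
    · intro y _ hy
      by_cases hχ : Y.χ v y = 1
      · rw [if_pos hχ, df, if_neg, if_neg, sub_zero, zero_mul]
        · intro h'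
          apply hy
          rw [h', Y.ρρ]
        · intro h'
          rw [h'] at h
          rw [h] at hχ
          exact absurd hχ (by decide)
      · rw [if_neg hχ]
    · intro h'
      exact absurd (Finset.mem_univ _) h'

theorem aat (hT : TTLStmt) : AATStmt := by
  intro Y l L r δ hl hr0 hr1 hδ0 hδ
  classical
  have hv12 : v1 ≠ v2 := by decide
  have hZ : (Matrix.of fun (i : Y.X) (j : C1b Y) => D1 Y (Sum.inr j) i) *
      (Matrix.of fun (i : Y.X) (j : C1b Y) => D1 Y (Sum.inr j) i).transpose =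
      (Matrix.of (fun y y' : Y.X =>
        ((if y' = y then 1 else 0) - (if y' = Y.ρ v1 y then 1 else 0)) +
        ((if y' = y then 1 else 0) - (if y' = Y.ρ v2 y then (1 : ℝ) else 0)))) := by
    ext i i'
    rw [Matrix.mul_apply, Matrix.of_apply]
    have h1 : ∀ j : C1b Y, (Matrix.of fun (i : Y.X) (j : C1b Y) => D1 Y (Sum.inr j) i) i j *
        (Matrix.of fun (i : Y.X) (j : C1b Y) => D1 Y (Sum.inr j) i).transpose j i' =
        (fun p : SV × Y.X => df Y p.1 p.2 i * df Y p.1 p.2 i') j.1 := fun j => rfl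
    rw [Finset.sum_congr rfl fun j _ => h1 j]
    have h3 : ∑ j : C1b Y, (fun p : SV × Y.X => df Y p.1 p.2 i * df Y p.1 p.2 i') j.1 =
        ∑ p ∈ Finset.univ.filter
          (fun p : SV × Y.X => (p.1 = v1 ∨ p.1 = v2) ∧ Y.χ p.1 p.2 = 1),
          df Y p.1 p.2 i * df Y p.1 p.2 i' := by
      symm
      exact Finset.sum_subtype (F := (inferInstance : Fintype (C1b Y))) (Finset.univ.filter
        (fun p : SV × Y.X => (p.1 = v1 ∨ p.1 = v2) ∧ Y.χ p.1 p.2 = 1))
        (fun p => by rw [Finset.mem_filter]; exact and_iff_right (Finset.mem_univ _))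
        (fun p : SV × Y.X => df Y p.1 p.2 i * df Y p.1 p.2 i')
    rw [h3, Finset.sum_filter, Fintype.sum_prod_type]
    have h4 : ∀ v : SV, ∑ y : Y.X, (if ((v = v1 ∨ v = v2) ∧ Y.χ v y = 1) then
        df Y v y i * df Y v y i' else 0) = if (v = v1 ∨ v = v2) then
        ((if i' = i then 1 else 0) - (if i' = Y.ρ v i then (1 : ℝ) else 0)) else 0 := by
      intro v
      by_cases hv : v = v1 ∨ v = v2
      · rw [if_pos hv, ← aat_col]
        refine Finset.sum_congr rfl fun y _ => ?_
        simp only [hv, true_and]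
      · rw [if_neg hv]
        refine Finset.sum_eq_zero fun y _ => ?_
        rw [if_neg fun h => hv h.1]
    simp only [h4]
    rw [← Finset.sum_filter]
    have h5 : Finset.univ.filter (fun v : SV => v = v1 ∨ v = v2) = {v1, v2} := by
      ext v
      simp
    rw [h5, Finset.sum_pair hv12]
  rw [gd, hZ]
  have hnz1 : nz v1 = 0 := by decide
  have hnz2 : nz v2 = 0 := by decide
  have hp1 : par v1 = true := by decide
  have hp2 : par v2 = false := by decide
  -- values at the other signs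
  have hup : ∀ v y, nz v = 0 → Y.χ v y ≠ 1 → L.ν (Y.ρ v y) = L.ν y + 1 := by
    intro v y hv hy
    have h1 : Y.χ v (Y.ρ v y) = 1 := by
      rw [Y.χ_self]
      rcases Int.units_eq_one_or (Y.χ v y) with h2 | h2
      · exact absurd h2 hy
      · rw [h2, neg_neg]
    have h2 := L.dn v (Y.ρ v y) hv h1
    rw [Y.ρρ] at h2
    rw [h2, sub_add_cancel]
  have h10 : ¬ ((0 : ℕ) = 1) := by decide
  refine hT Y.X (Y.ρ v1) (Y.ρ v2) l L.ν r δ hl (Y.ρρ v1) (Y.ρρ v2) ?_ ?_ hr0 hr1 hδ0 hδ
  · intro y hy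
    have h1 : Y.χ v1 y = 1 := by
      rw [L.odd v1 y hnz1, hy, hp1]
      simp
    have h2 : Y.χ v2 y ≠ 1 := by
      rw [Ne, L.odd v2 y hnz2, hy, hp2]
      simp
    exact ⟨L.dn v1 y hnz1 h1, hup v2 y hnz2 h2⟩
  · intro y hy
    have h1 : Y.χ v1 y ≠ 1 := by
      rw [Ne, L.odd v1 y hnz1, hy, hp1]
      simp
    have h2 : Y.χ v2 y = 1 := by
      rw [L.odd v2 y hnz2, hy, hp2]
      simp
    exact ⟨hup v1 y hnz1 h1, L.dn v2 y hnz2 h2⟩

end Pool.LU.FK
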