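import Pool.Agent.H87.LUY.Stmts

/-!
Project LU, part Y (Fuglede-Kadison route), module STX.
-/

set_option autoImplicit false

open scoped BigOperators Matrix

noncomputable section

namespace Pool.LU.FK

/-- a nonzero entry of a power gives a path -/
theorem stx_path {Q F : Type} [Fintype Q] [DecidableEq Q] [Fintype F] [DecidableEq F]
    (ρ : F → Q → Q) (T : Matrix (Q × F) (Q × F) ℝ)
    (hT : ∀ p q, T p q ≠ 0 → p.2 ≠ q.2 ∧ q.1 = ρ q.2 p.1) :
    ∀ (n : ℕ) (p q : Q × F), (T ^ n) p q ≠ 0 → ∃ w : List F, w.length = n ∧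
      (p.2 :: w).IsChain (· ≠ ·) ∧ w.foldl (fun q f => ρ f q) p.1 = q.1 := by
  intro n
  induction n with
  | zero =>
    intro p q h
    rw [pow_zero, Matrix.one_apply] at h
    have h1 : p = q := by
      by_contra h2
      rw [if_neg h2] at h
      exact h rfl
    subst h1
    exact ⟨[], rfl, List.IsChain.singleton _, rfl⟩
  | succ n ih =>
    intro p q h
    rw [pow_succ', Matrix.mul_apply] at h
    obtain ⟨z, -, hz⟩ := Finset.exists_ne_zero_of_sum_ne_zero h
    have h1 : T p z ≠ 0 := left_ne_zero_of_mul hz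
    have h2 : (T ^ n) z q ≠ 0 := right_ne_zero_of_mul hz
    obtain ⟨h3, h4⟩ := hT p z h1
    obtain ⟨w, hw1, hw2, hw3⟩ := ih z q h2
    refine ⟨z.2 :: w, by rw [List.length_cons, hw1], ?_, ?_⟩
    · rw [List.isChain_cons_cons]
      exact ⟨h3, hw2⟩
    · rw [List.foldl_cons, ← h4]
      exact hw3

theorem stx (hX : SXDStmt) (hL : LOGStmt) (hD : DMOStmt) : STXStmt := by
  intro Q F K _ _ _ _ _ _ ρ B s η M h11 hne hF hK hB hB2 hs0 hs1 hη hM hfree
  classical
  obtain ⟨T, hT1, hT2, hT3⟩ := hX Q F K ρ B s h11 hne hF hK hB hs0 hs1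
  have hTne : ∀ p q, T p q ≠ 0 → p.2 ≠ q.2 ∧ q.1 = ρ q.2 p.1 := by
    intro p q h
    rw [hT2] at h
    refine ⟨fun h1 => ?_, ?_⟩
    · apply left_ne_zero_of_mul h
      rw [h1, if_pos rfl]
      have h2 := hB2 q.2
      have h3 : ∑ k, B k q.2 * B k q.2 = ∑ k, B k q.2 ^ 2 :=
        Finset.sum_congr rfl fun k _ => (pow_two _).symm
      rw [h3, ← pow_two, h2]
      norm_num
    · by_contra h1
      apply right_ne_zero_of_mul h
      rw [if_neg h1]
  have htr : ∀ n, 1 ≤ n → n < M → (T ^ n).trace = 0 := by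
    intro n hn hn'
    rw [Matrix.trace]
    refine Finset.sum_eq_zero fun p _ => ?_
    rw [Matrix.diag_apply]
    by_contra h
    obtain ⟨w, hw1, hw2, hw3⟩ := stx_path ρ T hTne n p p h
    refine hfree w ?_ (by omega) ?_ p.1 hw3
    · intro h0
      rw [h0, List.length_nil] at hw1
      omega
    · cases w with
      | nil => exact List.IsChain.nil
      | cons a w =>
        rw [List.isChain_cons_cons] at hw2
        exact hw2.2
  obtain ⟨hlow, -⟩ := hL (Q × F) T s M hT1 hs0.le hs1 hM htr
  have hcard : (Fintype.card (Q × F) : ℝ) = 6 * (Fintype.card Q : ℝ) := by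
    rw [Fintype.card_prod, hF]
    push_cast
    ring
  rw [hcard] at hlow
  set X : Matrix (K × Q) (K × Q) ℝ := Matrix.of (fun p q : K × Q => ∑ f, B p.1 f * B q.1 f *
      ((if q.2 = p.2 then 1 else 0) - (if q.2 = ρ f p.2 then 1 else 0))) with hXdef
  -- `X` is positive semidefinite
  have hXpsd : X.PosSemidef := by
    let N : Matrix (K × Q) (F × Q) ℝ := Matrix.of fun p z =>
      B p.1 z.1 * ((if z.2 = p.2 then 1 else 0) - (if z.2 = ρ z.1 p.2 then 1 else 0))
    have h1 : X = (1 / 2 : ℝ) • (N * Nᵀ) := by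
      ext p q
      rw [Matrix.smul_apply, Matrix.mul_apply, hXdef, Matrix.of_apply, Fintype.sum_prod_type,
        Finset.smul_sum]
      refine Finset.sum_congr rfl fun f _ => ?_
      have h2 : ∀ z : Q, N p (f, z) * Nᵀ (f, z) q = B p.1 f * B q.1 f *
          (((if z = p.2 then 1 else 0) - (if z = ρ f p.2 then 1 else 0)) *
          ((if z = q.2 then 1 else 0) - (if z = ρ f q.2 then 1 else 0))) := by
        intro z
        rw [Matrix.transpose_apply]
        show B p.1 f * ((if z = p.2 then 1 else 0) - (if z = ρ f p.2 then 1 else 0)) *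
          (B q.1 f * ((if z = q.2 then 1 else 0) - (if z = ρ f q.2 then 1 else 0))) = _
        ring
      simp only [h2]
      rw [← Finset.mul_sum]
      have h3 : ∑ z : Q, (((if z = p.2 then (1 : ℝ) else 0) - (if z = ρ f p.2 then 1 else 0)) *
          ((if z = q.2 then 1 else 0) - (if z = ρ f q.2 then 1 else 0))) =
          2 * ((if q.2 = p.2 then 1 else 0) - (if q.2 = ρ f p.2 then 1 else 0)) := by
        simp only [sub_mul, mul_sub, Finset.sum_sub_distrib, ite_mul, one_mul, zero_mul,
          Finset.sum_ite_eq', Finset.mem_univ, if_true]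
        have e1 : (if p.2 = q.2 then (1 : ℝ) else 0) = if q.2 = p.2 then 1 else 0 := by
          congr 1
          rw [eq_iff_iff]
          exact eq_comm
        have e2 : (if p.2 = ρ f q.2 then (1 : ℝ) else 0) = if q.2 = ρ f p.2 then 1 else 0 := by
          congr 1
          rw [eq_iff_iff]
          constructor
          · intro h
            rw [h, h11]
          · intro h
            rw [h, h11]
        have e3 : (if ρ f p.2 = q.2 then (1 : ℝ) else 0) = if q.2 = ρ f p.2 then 1 else 0 := by
          congr 1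
          rw [eq_iff_iff]
          exact eq_comm
        have e4 : (if ρ f p.2 = ρ f q.2 then (1 : ℝ) else 0) = if q.2 = p.2 then 1 else 0 := by
          congr 1
          rw [eq_iff_iff]
          constructor
          · intro h
            rw [← h11 f q.2, ← h, h11]
          · intro h
            rw [h]
        rw [e1, e2, e3, e4]
        ring
      rw [h3, smul_eq_mul]
      ring
    rw [h1, ← Matrix.conjTranspose_eq_transpose_of_trivial]
    exact (Matrix.posSemidef_self_mul_conjTranspose _).smul (by norm_num)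
  have hone : ∀ t : ℝ, 0 ≤ t → (t • (1 : Matrix (K × Q) (K × Q) ℝ)).PosSemidef := by
    intro t ht
    exact Matrix.PosSemidef.one.smul ht
  have h0 : 0 ≤ (1 - s) ^ 2 / s := by positivity
  have hle := hD (K × Q) (X + (2 * ((1 - s) ^ 2 / s)) • 1) (X + (2 * η) • 1)
    (hXpsd.add (hone _ (by positivity))) (by
      rw [add_sub_add_left_eq_sub, ← sub_smul]
      exact hone _ (by linarith))
  refine le_trans ?_ (hT3.trans hle)
  exact mul_le_mul_of_nonneg_left hlow (by positivity)

end Pool.LU.FK
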