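import Pool.Agent.H87.LUY.Stmts

/-!
Project LU, part Y (Fuglede-Kadison route), module TTL.
-/

set_option autoImplicit false

open scoped BigOperators Matrix

noncomputable section

namespace Pool.LU.FK

theorem ttl_parity {l : ℕ} (hl : 1 ≤ l) (x : ZMod (2 * l)) :
    (x + 1).val % 2 = 1 - x.val % 2 := by
  have : NeZero (2 * l) := ⟨by omega⟩
  rw [ZMod.val_add, Nat.mod_mod_of_dvd _ (dvd_mul_right 2 l), Nat.add_mod,
    ZMod.val_one'' (by omega)]
  rcases Nat.mod_two_eq_zero_or_one x.val with h | h <;> rw [h]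

theorem ttl_parity' {l : ℕ} (hl : 1 ≤ l) (x : ZMod (2 * l)) :
    (x - 1).val % 2 = 1 - x.val % 2 := by
  have h := ttl_parity hl (x - 1)
  rw [sub_add_cancel] at h
  rcases Nat.mod_two_eq_zero_or_one (x - 1).val with h1 | h1 <;> rw [h1] at h ⊢ <;> omega

/-- the matrix of a map -/
def ttlP {Q : Type} [DecidableEq Q] (f : Q → Q) : Matrix Q Q ℝ :=
  Matrix.of fun y y' => if y' = f y then 1 else 0

theorem ttlP_apply {Q : Type} [DecidableEq Q] (f : Q → Q) (y y' : Q) :
    ttlP f y y' = if y' = f y then 1 else 0 := rfl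

theorem ttlP_mul {Q : Type} [Fintype Q] [DecidableEq Q] (f g : Q → Q) :
    ttlP f * ttlP g = ttlP (fun y => g (f y)) := by
  ext y y'
  rw [Matrix.mul_apply, Finset.sum_eq_single (f y)]
  · rw [ttlP_apply, if_pos rfl, one_mul, ttlP_apply, ttlP_apply]
  · intro z _ hz
    rw [ttlP_apply, if_neg hz, zero_mul]
  · intro h
    exact absurd (Finset.mem_univ _) h

theorem ttlP_id {Q : Type} [DecidableEq Q] : ttlP (fun y : Q => y) = 1 := by
  ext y y'
  rw [ttlP_apply, Matrix.one_apply]
  by_cases h : y = y'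
  · rw [if_pos h.symm, if_pos h]
  · rw [if_neg fun h' => h h'.symm, if_neg h]

theorem ttlP_pow {Q : Type} [Fintype Q] [DecidableEq Q] (f : Q → Q) (n : ℕ) :
    ttlP f ^ n = ttlP (f^[n]) := by
  induction n with
  | zero =>
    rw [pow_zero, ← ttlP_id]
    rfl
  | succ n ih =>
    rw [pow_succ, ih, ttlP_mul]
    congr 1
    funext y
    rw [Function.iterate_succ_apply']

theorem ttlP_transpose {Q : Type} [Fintype Q] [DecidableEq Q] (f g : Q → Q)
    (h1 : ∀ y, f (g y) = y) (h2 : ∀ y, g (f y) = y) : (ttlP f)ᵀ = ttlP g := by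
  ext y y'
  rw [Matrix.transpose_apply, ttlP_apply, ttlP_apply]
  congr 1
  rw [eq_iff_iff]
  constructor
  · rintro rfl
    exact (h2 y').symm
  · rintro rfl
    exact (h1 y).symm

theorem ttl (hL : LOGStmt) (hD : DMOStmt) : TTLStmt := by
  intro Q _ _ ρ1 ρ2 l ν r δ hl h11 h22 hodd heven hr0 hr1 hδ0 hδ
  have : NeZero (2 * l) := ⟨by omega⟩
  classical
  let T : Q → Q := fun y => if (ν y).val % 2 = 1 then ρ2 y else ρ1 y
  let S : Q → Q := fun y => if (ν y).val % 2 = 1 then ρ1 y else ρ2 y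
  have hT : ∀ y, T y = if (ν y).val % 2 = 1 then ρ2 y else ρ1 y := fun y => rfl
  have hS : ∀ y, S y = if (ν y).val % 2 = 1 then ρ1 y else ρ2 y := fun y => rfl
  have hcase : ∀ y, (ν y).val % 2 = 1 ∨ (ν y).val % 2 = 0 := fun y => by omega
  have hνT : ∀ y, ν (T y) = ν y + 1 := by
    intro y
    rw [hT]
    rcases hcase y with h | h
    · rw [if_pos h]
      exact (hodd y h).2
    · rw [if_neg (by omega)]
      exact (heven y h).1
  have hνS : ∀ y, ν (S y) = ν y - 1 := by
    intro y
    rw [hS]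
    rcases hcase y with h | h
    · rw [if_pos h]
      exact (hodd y h).1
    · rw [if_neg (by omega)]
      exact (heven y h).2
  have hST : ∀ y, S (T y) = y := by
    intro y
    have h1 := ttl_parity hl (ν y)
    rw [← hνT] at h1
    rcases hcase y with h | h
    · rw [hS, if_neg (by omega), hT, if_pos h, h22]
    · rw [hS, if_pos (by omega), hT, if_neg (by omega), h11]
  have hTS : ∀ y, T (S y) = y := by
    intro y
    have h1 := ttl_parity' hl (ν y)
    rw [← hνS] at h1
    rcases hcase y with h | h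
    · rw [hT, if_neg (by omega), hS, if_pos h, h11]
    · rw [hT, if_pos (by omega), hS, if_neg (by omega), h22]
  set P : Matrix Q Q ℝ := ttlP T with hP
  have hPt : Pᵀ = ttlP S := ttlP_transpose T S hTS hST
  have hPP : P * Pᵀ = 1 := by
    rw [hPt, hP, ttlP_mul, ← ttlP_id]
    congr 1
    funext y
    exact hST y
  have hPP' : Pᵀ * P = 1 := by
    rw [hPt, hP, ttlP_mul, ← ttlP_id]
    congr 1
    funext y
    exact hTS y
  -- the main matrix
  set M : Matrix Q Q ℝ := Matrix.of (fun y y' : Q =>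
    ((if y' = y then 1 else 0) - (if y' = ρ1 y then 1 else 0)) +
    ((if y' = y then 1 else 0) - (if y' = ρ2 y then (1 : ℝ) else 0))) with hM
  have hM2 : M = (2 : ℝ) • 1 - (P + Pᵀ) := by
    ext y y'
    rw [hPt, hP, hM, Matrix.of_apply, Matrix.sub_apply, Matrix.smul_apply, Matrix.add_apply,
      Matrix.one_apply, ttlP_apply, ttlP_apply, hT, hS, smul_eq_mul]
    have h1 : (if y = y' then (1 : ℝ) else 0) = if y' = y then 1 else 0 := by
      congr 1
      rw [eq_iff_iff]
      exact eq_comm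
    rw [h1]
    rcases hcase y with h | h
    · rw [if_pos h, if_pos h]
      ring
    · have hneg : ¬ (ν y).val % 2 = 1 := by omega
      rw [if_neg hneg, if_neg hneg]
      ring
  have hfac : ∀ t : ℝ, (1 - t • P) * (1 - t • P)ᵀ = (1 + t ^ 2) • (1 : Matrix Q Q ℝ) -
      t • (P + Pᵀ) := by
    intro t
    rw [Matrix.transpose_sub, Matrix.transpose_one, Matrix.transpose_smul, sub_mul, mul_sub,
      mul_sub, one_mul, mul_one, one_mul, Matrix.smul_mul, Matrix.mul_smul, hPP, smul_smul,
      smul_add, add_smul, one_smul, pow_two]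
    abel
  have hMpsd : M.PosSemidef := by
    have h1 : M = (1 - (1 : ℝ) • P) * (1 - (1 : ℝ) • P)ᵀ := by
      rw [hfac, hM2]
      norm_num
    rw [h1, ← Matrix.conjTranspose_eq_transpose_of_trivial]
    exact Matrix.posSemidef_self_mul_conjTranspose _
  have hone : ∀ t : ℝ, 0 ≤ t → (t • (1 : Matrix Q Q ℝ)).PosSemidef := by
    intro t ht
    exact Matrix.PosSemidef.one.smul ht
  have hdet1 : (M + ((1 - r) ^ 2 / r) • (1 : Matrix Q Q ℝ)).det =
      (1 / r) ^ (Fintype.card Q) * (1 - r • P).det ^ 2 := by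
    have h1 : M + ((1 - r) ^ 2 / r) • (1 : Matrix Q Q ℝ) =
        (1 / r) • ((1 - r • P) * (1 - r • P)ᵀ) := by
      rw [hfac, hM2, smul_sub, smul_smul, smul_smul, sub_add_eq_add_sub, ← add_smul]
      congr 1
      · congr 1
        field_simp
        ring
      · rw [one_div, inv_mul_cancel₀ hr0.ne', one_smul]
    rw [h1, Matrix.det_smul, Matrix.det_mul, Matrix.det_transpose, pow_two]
  -- traces
  have hiter : ∀ (n : ℕ) (y : Q), ν (T^[n] y) = ν y + n := by
    intro n
    induction n with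
    | zero =>
      intro y
      simp
    | succ n ih =>
      intro y
      rw [Function.iterate_succ_apply', hνT, ih]
      push_cast
      ring
  have htr : ∀ n, 1 ≤ n → n < 2 * l → (P ^ n).trace = 0 := by
    intro n hn hn'
    rw [hP, ttlP_pow, Matrix.trace]
    refine Finset.sum_eq_zero fun y _ => ?_
    rw [Matrix.diag_apply, ttlP_apply, if_neg]
    intro h
    have h1 := hiter n y
    rw [← h] at h1
    have h2 : ((n : ℕ) : ZMod (2 * l)) = 0 := by
      have h3 : ν y + 0 = ν y + (n : ZMod (2 * l)) := by rw [add_zero]; exact h1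
      exact (add_left_cancel h3).symm
    rw [ZMod.natCast_eq_zero_iff] at h2
    exact absurd (Nat.le_of_dvd (by omega) h2) (by omega)
  obtain ⟨hlow, hup⟩ := hL Q P r (2 * l) hPP' hr0.le hr1 (by omega) htr
  have hle := hD Q (M + δ • (1 : Matrix Q Q ℝ)) (M + ((1 - r) ^ 2 / r) • (1 : Matrix Q Q ℝ))
    (hMpsd.add (hone δ hδ0)) (by
      rw [add_sub_add_left_eq_sub, ← sub_smul]
      exact hone _ (sub_nonneg.2 hδ))
  refine hle.trans ?_
  rw [hdet1]
  have h0 : 0 < (1 - r • P).det := lt_of_lt_of_le (Real.exp_pos _) hlow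
  have h1 : (1 - r • P).det ^ 2 ≤
      Real.exp (2 * (Fintype.card Q : ℝ) * r ^ (2 * l) / (1 - r)) := by
    calc (1 - r • P).det ^ 2 ≤ (Real.exp ((Fintype.card Q : ℝ) * r ^ (2 * l) / (1 - r))) ^ 2 :=
          pow_le_pow_left₀ h0.le hup 2
      _ = Real.exp (2 * (Fintype.card Q : ℝ) * r ^ (2 * l) / (1 - r)) := by
          rw [← Real.exp_nat_mul]
          congr 1
          push_cast
          ring
  exact mul_le_mul_of_nonneg_left h1 (by positivity)

end Pool.LU.FK
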